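import Pool.Agent.helper67.DL.SpecL

/-! # Project dl, module VB: the barrier on the annulus -/

set_option autoImplicit false

namespace Pool.Agent.DL

open Matrix Complex
open scoped ComplexOrder

/-- the barrier -/
noncomputable def VB_g (t r : ℝ) : ℝ :=
  3 / 20 * (Real.exp (-(20 * t) * (r - 1 / (8 * t))) - Real.exp (-(20 * t) * (3 / 2 - 1 / (8 * t))))

theorem VB_g_deriv (t r : ℝ) : HasDerivAt (VB_g t)
    (3 / 20 * (Real.exp (-(20 * t) * (r - 1 / (8 * t))) * (-(20 * t)))) r := by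
  have h1 : HasDerivAt (fun r : ℝ => -(20 * t) * (r - 1 / (8 * t))) (-(20 * t)) r := by
    have := ((hasDerivAt_id r).sub_const (1 / (8 * t))).const_mul (-(20 * t))
    rw [mul_one] at this
    exact this
  exact (h1.exp.sub_const _).const_mul _

theorem VB_g_deriv2 (t r : ℝ) : HasDerivAt (deriv (VB_g t))
    (3 / 20 * (Real.exp (-(20 * t) * (r - 1 / (8 * t))) * (-(20 * t)) * (-(20 * t)))) r := by
  have h0 : deriv (VB_g t) =
      fun r => 3 / 20 * (Real.exp (-(20 * t) * (r - 1 / (8 * t))) * (-(20 * t))) :=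
    funext fun r => (VB_g_deriv t r).deriv
  have h1 : HasDerivAt (fun r : ℝ => -(20 * t) * (r - 1 / (8 * t))) (-(20 * t)) r := by
    have := ((hasDerivAt_id r).sub_const (1 / (8 * t))).const_mul (-(20 * t))
    rw [mul_one] at this
    exact this
  rw [h0]
  exact (h1.exp.mul_const _).const_mul _

theorem VB_g_cd (t r : ℝ) : ContDiffAt ℝ 2 (VB_g t) r := by
  unfold VB_g
  fun_prop

theorem VB_qq (t : ℝ) (z : ℂ) : ‖qq t z‖ = t ^ 2 * (‖z - 1‖ * ‖z + 1‖) := by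
  unfold qq
  have h : (1 : ℂ) - z ^ 2 = -((z - 1) * (z + 1)) := by ring
  rw [h, norm_mul, norm_neg, norm_mul, norm_pow, Complex.norm_real, Real.norm_eq_abs, sq_abs]

theorem VB_an (t : ℝ) (z : ℂ) : AnalyticAt ℂ (qq t) z := by
  unfold qq
  fun_prop

theorem VB_exp {x : ℝ} (h0 : 0 ≤ x) (h1 : x ≤ 3 / 20) :
    Real.exp x - Real.exp (-x) ≤ 43 / 20 * x := by
  have h2 := Real.abs_exp_sub_one_sub_id_le (x := x) (by rw [abs_of_nonneg h0]; linarith)
  have h3 := (abs_le.1 h2).2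
  have h4 := Real.add_one_le_exp (-x)
  nlinarith

theorem VB (hMX : MX_stmt) (hLA : LA_stmt) (hRA : RA_stmt) : VB_stmt := by
  intro t W L hS hin
  have ht := hS.ht
  have ht0 : 0 < t := by linarith
  obtain ⟨r0, hr0⟩ : ∃ r0 : ℝ, r0 = 1 / (8 * t) := ⟨_, rfl⟩
  have hr0p : 0 < r0 := by rw [hr0]; positivity
  have hr0t : r0 * t = 1 / 8 := by
    rw [hr0]
    field_simp
  have hr0l : r0 ≤ 1 / 8 := by nlinarith
  -- the domain
  obtain ⟨D, hD⟩ : ∃ D : Set ℂ, D = Metric.closedBall 1 (3 / 2) ∩ {z | r0 ≤ ‖z - 1‖} := ⟨_, rfl⟩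
  have hDc : IsCompact D := by
    rw [hD]
    exact (isCompact_closedBall _ _).inter_right
      (isClosed_le continuous_const (by fun_prop))
  have hmem : ∀ z : ℂ, z ∈ D ↔ ‖z - 1‖ ≤ 3 / 2 ∧ r0 ≤ ‖z - 1‖ := by
    intro z
    rw [hD]
    exact and_congr (by rw [Metric.mem_closedBall, dist_eq_norm]) Iff.rfl
  have hD3 : ∀ z ∈ D, z ∈ Metric.ball (0 : ℂ) 3 := by
    intro z hz
    rw [Metric.mem_ball, dist_zero_right]
    have h1 := ((hmem z).1 hz).1
    calc ‖z‖ = ‖(z - 1) + 1‖ := by rw [sub_add_cancel]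
      _ ≤ ‖z - 1‖ + ‖(1 : ℂ)‖ := norm_add_le _ _
      _ < 3 := by rw [norm_one]; linarith
  have hz1 : ∀ z ∈ D, z ≠ 1 := by
    rintro z hz rfl
    have h1 := ((hmem 1).1 hz).2
    rw [sub_self, norm_zero] at h1
    linarith
  have hzp : ∀ z ∈ D, 0 < ‖z + 1‖ ∧ ‖z + 1‖ ≤ 7 / 2 := by
    intro z hz
    have h1 := ((hmem z).1 hz).1
    constructor
    · have h2 : ‖(2 : ℂ)‖ ≤ ‖z + 1‖ + ‖z - 1‖ := by
        calc ‖(2 : ℂ)‖ = ‖(z + 1) - (z - 1)‖ := by congr 1; ring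
          _ ≤ _ := norm_sub_le _ _
      rw [Complex.norm_two] at h2
      linarith
    · calc ‖z + 1‖ = ‖(z - 1) + 2‖ := by congr 1; ring
        _ ≤ ‖z - 1‖ + ‖(2 : ℂ)‖ := norm_add_le _ _
        _ ≤ 7 / 2 := by rw [Complex.norm_two]; linarith
  have hqpos : ∀ z ∈ D, 0 < ‖qq t z‖ := by
    intro z hz
    rw [VB_qq]
    have h1 := lt_of_lt_of_le hr0p ((hmem z).1 hz).2
    have h2 := (hzp z hz).1
    positivity
  have hq0 : ∀ z ∈ D, qq t z ≠ 0 := fun z hz => norm_pos_iff.1 (hqpos z hz)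
  have hqle : ∀ z ∈ D, ‖qq t z‖ ≤ 21 / 4 * t ^ 2 := by
    intro z hz
    rw [VB_qq]
    have h1 := ((hmem z).1 hz).1
    have h2 := (hzp z hz).2
    have h3 : ‖z - 1‖ * ‖z + 1‖ ≤ 3 / 2 * (7 / 2) :=
      mul_le_mul h1 h2 (norm_nonneg _) (by norm_num)
    nlinarith [sq_nonneg t]
  -- the function
  obtain ⟨u, hu⟩ : ∃ u : ℂ → ℝ, u = fun w => 1 * (1 * VB_g t ‖w - 1‖ + 1 * Real.log ‖qq t w‖) +
    2 * L w := ⟨_, rfl⟩
  have hLcd : ∀ z ∈ D, ContDiffAt ℝ 2 L z := fun z hz =>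
    hS.smooth.contDiffAt (Metric.isOpen_ball.mem_nhds (hD3 z hz))
  have hgcd : ∀ z ∈ D, ContDiffAt ℝ 2 (fun w : ℂ => VB_g t ‖w - 1‖) z ∧
      lap (fun w : ℂ => VB_g t ‖w - 1‖) z =
        (iteratedDeriv 2 (VB_g t) ‖z - 1‖ + deriv (VB_g t) ‖z - 1‖ / ‖z - 1‖) / 4 := fun z hz =>
    hRA.1 (VB_g t) 1 z (hz1 z hz) (VB_g_cd _ _)
  have hlcd : ∀ z ∈ D, ContDiffAt ℝ 2 (fun w => Real.log ‖qq t w‖) z ∧
      lap (fun w => Real.log ‖qq t w‖) z = 0 := fun z hz =>
    hRA.2 (qq t) z (VB_an t z) (hq0 z hz)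
  have hs1 : ∀ z ∈ D, ContDiffAt ℝ 2
      (fun w => 1 * VB_g t ‖w - 1‖ + 1 * Real.log ‖qq t w‖) z := fun z hz =>
    (contDiffAt_const.mul (hgcd z hz).1).add (contDiffAt_const.mul (hlcd z hz).1)
  have hucd : ∀ z ∈ D, ContDiffAt ℝ 2 u z := fun z hz => by
    rw [hu]
    exact (contDiffAt_const.mul (hs1 z hz)).add (contDiffAt_const.mul (hLcd z hz))
  have hulap : ∀ z ∈ D, lap u z =
      (3 / 20 * (Real.exp (-(20 * t) * (‖z - 1‖ - 1 / (8 * t))) * (-(20 * t)) * (-(20 * t))) +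
        3 / 20 * (Real.exp (-(20 * t) * (‖z - 1‖ - 1 / (8 * t))) * (-(20 * t))) / ‖z - 1‖) / 4 +
      2 * (W z * (‖qq t z‖ ^ 2 * Real.exp (2 * L z) - Real.exp (-(2 * L z)))) := by
    intro z hz
    rw [hu, hLA.1 _ L z 1 2 (hs1 z hz) (hLcd z hz),
      hLA.1 _ _ z 1 1 (hgcd z hz).1 (hlcd z hz).1, (hgcd z hz).2, (hlcd z hz).2,
      hS.eq z (hD3 z hz), iteratedDeriv_succ, iteratedDeriv_one, (VB_g_deriv2 t _).deriv,
      (VB_g_deriv t _).deriv]
    ring
  have huc : ContinuousOn u D := fun z hz => (hucd z hz).continuousAt.continuousWithinAt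
  have h0D : (0 : ℂ) ∈ D := by
    rw [hmem]
    have : ‖(0 : ℂ) - 1‖ = 1 := by rw [zero_sub, norm_neg, norm_one]
    rw [this]
    constructor <;> linarith
  obtain ⟨z, hzD, hmax⟩ := hDc.exists_isMaxOn ⟨0, h0D⟩ huc
  have hkey : u z ≤ 0 := by
    by_contra hcon
    push Not at hcon
    obtain ⟨hzr, hzl⟩ := (hmem z).1 hzD
    have huz : u z = VB_g t ‖z - 1‖ + Real.log ‖qq t z‖ + 2 * L z := by
      rw [hu]
      ring
    have hle : Real.log ‖qq t z‖ + 2 * L z ≤ 0 := by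
      have h1 := hS.le z (hD3 z hzD)
      have h2 := Real.log_le_log (mul_pos (hqpos z hzD) (Real.exp_pos _)) h1
      rw [Real.log_mul (hqpos z hzD).ne' (Real.exp_pos _).ne', Real.log_exp, Real.log_one] at h2
      exact h2
    -- not on the inner circle
    have hne1 : ‖z - 1‖ ≠ r0 := by
      intro h1
      have h2 := hin z (by rw [h1, hr0])
      have h3 : VB_g t ‖z - 1‖ ≤ 3 / 20 := by
        unfold VB_g
        rw [h1, hr0, sub_self, mul_zero, Real.exp_zero]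
        have := Real.exp_pos (-(20 * t) * (3 / 2 - 1 / (8 * t)))
        linarith
      linarith
    have hne2 : ‖z - 1‖ ≠ 3 / 2 := by
      intro h1
      have h3 : VB_g t ‖z - 1‖ = 0 := by
        unfold VB_g
        rw [h1, sub_self, mul_zero]
      linarith
    have hlt1 : r0 < ‖z - 1‖ := lt_of_le_of_ne hzl (Ne.symm hne1)
    have hlt2 : ‖z - 1‖ < 3 / 2 := lt_of_le_of_ne hzr hne2
    have hloc : IsLocalMax u z := by
      have hopen : {w : ℂ | r0 < ‖w - 1‖ ∧ ‖w - 1‖ < 3 / 2} ∈ nhds z := by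
        have hc : Continuous (fun w : ℂ => ‖w - 1‖) := by fun_prop
        have ho1 : IsOpen {w : ℂ | r0 < ‖w - 1‖} := isOpen_lt continuous_const hc
        have ho2 : IsOpen {w : ℂ | ‖w - 1‖ < 3 / 2} := isOpen_lt hc continuous_const
        exact (ho1.inter ho2).mem_nhds ⟨hlt1, hlt2⟩
      filter_upwards [hopen] with w hw
      exact hmax ((hmem w).2 ⟨hw.2.le, hw.1.le⟩)
    have hlap := hMX u z (hucd z hzD) hloc
    rw [hulap z hzD] at hlap
    -- numbers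
    obtain ⟨r, hr⟩ : ∃ r : ℝ, r = ‖z - 1‖ := ⟨_, rfl⟩
    obtain ⟨E, hE⟩ : ∃ E : ℝ, E = Real.exp (-(20 * t) * (‖z - 1‖ - 1 / (8 * t))) := ⟨_, rfl⟩
    obtain ⟨ψ, hψ⟩ : ∃ ψ : ℝ, ψ = VB_g t ‖z - 1‖ := ⟨_, rfl⟩
    obtain ⟨v, hv⟩ : ∃ v : ℝ, v = -(Real.log ‖qq t z‖ + 2 * L z) := ⟨_, rfl⟩
    have hEpos : 0 < E := by rw [hE]; exact Real.exp_pos _
    have hE1 : E ≤ 1 := by
      rw [hE, Real.exp_le_one_iff]
      have : 0 ≤ ‖z - 1‖ - 1 / (8 * t) := by rw [← hr0]; linarith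
      nlinarith
    have hψE : ψ ≤ 3 / 20 * E := by
      rw [hψ, hE]
      unfold VB_g
      have := Real.exp_pos (-(20 * t) * (3 / 2 - 1 / (8 * t)))
      linarith
    have hv0 : 0 ≤ v := by rw [hv]; linarith
    have hvψ : v < ψ := by
      rw [huz, ← hψ] at hcon
      rw [hv]
      linarith
    have hψ15 : ψ ≤ 3 / 20 := by nlinarith
    rw [← hE, ← hr] at hlap
    have hrpos : 0 < r := by rw [hr]; linarith
    have hrt : 1 / 8 ≤ r * t := by
      rw [← hr0t, hr]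
      nlinarith
    have hdiv : 3 / 20 * (E * (-(20 * t))) / r ≥ -(24 * t ^ 2 * E) := by
      rw [ge_iff_le, le_div_iff₀ hrpos]
      have : 0 ≤ (r * t - 1 / 8) * (t * E) := mul_nonneg (by linarith) (by positivity)
      nlinarith
    have hfirst : 9 * t ^ 2 * E ≤ (3 / 20 * (E * (-(20 * t)) * (-(20 * t))) +
        3 / 20 * (E * (-(20 * t))) / r) / 4 := by
      have h1 : 3 / 20 * (E * (-(20 * t)) * (-(20 * t))) = 60 * t ^ 2 * E := by ring
      rw [h1]
      linarith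
    -- the nonlinear term
    obtain ⟨Q, hQ⟩ : ∃ Q : ℝ, Q = ‖qq t z‖ := ⟨_, rfl⟩
    have hQpos : 0 < Q := by rw [hQ]; exact hqpos z hzD
    have hQle : Q ≤ 21 / 4 * t ^ 2 := by rw [hQ]; exact hqle z hzD
    have hev : Real.exp v = Real.exp (-(2 * L z)) / Q := by
      rw [hv, neg_add, Real.exp_add, Real.exp_neg (Real.log _), Real.exp_log (hqpos z hzD), ← hQ]
      ring
    have hev' : Real.exp (-v) = Q * Real.exp (2 * L z) := by
      rw [hv, neg_neg, Real.exp_add, Real.exp_log (hqpos z hzD), ← hQ]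
    have hnon : ‖qq t z‖ ^ 2 * Real.exp (2 * L z) - Real.exp (-(2 * L z)) =
        -(Q * (Real.exp v - Real.exp (-v))) := by
      rw [hev, hev', ← hQ]
      field_simp
      ring
    rw [hnon] at hlap
    obtain ⟨hW1, hW2⟩ := hS.hW z (hD3 z hzD)
    have hsinh : Real.exp v - Real.exp (-v) ≤ 43 / 20 * ψ := by
      have h1 := VB_exp (x := ψ) (by linarith) hψ15
      have h2 : Real.exp v ≤ Real.exp ψ := Real.exp_le_exp.2 hvψ.le
      have h3 : Real.exp (-ψ) ≤ Real.exp (-v) := Real.exp_le_exp.2 (by linarith)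
      linarith
    have hsn : 0 ≤ Real.exp v - Real.exp (-v) := by
      have : Real.exp (-v) ≤ Real.exp v := Real.exp_le_exp.2 (by linarith)
      linarith
    have hψpos : 0 < ψ := lt_of_le_of_lt hv0 hvψ
    have hbig : W z * (Q * (Real.exp v - Real.exp (-v))) ≤ 2 * (21 / 4 * t ^ 2 * (43 / 20 * ψ)) := by
      refine mul_le_mul hW2 ?_ (by positivity) (by norm_num)
      exact mul_le_mul hQle hsinh hsn (by positivity)
    have ht2 : 0 < t ^ 2 := by positivity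
    have hc1 : 60 * (t ^ 2 * ψ) ≤ 9 * t ^ 2 * E := by nlinarith
    have hc2 : 0 < t ^ 2 * ψ := by positivity
    nlinarith
  -- conclusion
  have h0 : u 0 ≤ 0 := le_trans (hmax h0D) hkey
  have hu0 : u 0 = VB_g t 1 + Real.log ‖qq t 0‖ + 2 * L 0 := by
    rw [hu]
    simp only [zero_sub, norm_neg, norm_one]
    ring
  have hg1 : Real.exp (-(20 * t)) ≤ VB_g t 1 := by
    unfold VB_g
    have e1 : -(20 * t) * (1 - 1 / (8 * t)) = -(20 * t) + 5 / 2 := by
      field_simp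
      ring
    have e2 : -(20 * t) * (3 / 2 - 1 / (8 * t)) = -(20 * t) + 5 / 2 + -(10 * t) := by
      field_simp
      ring
    rw [e1, e2, Real.exp_add _ (-(10 * t)), Real.exp_add]
    have h1 : (10 : ℝ) ≤ Real.exp (5 / 2) := by
      have h2 := Real.exp_one_gt_d9
      have h3 : Real.exp (5 / 2) = Real.exp 1 * Real.exp 1 * Real.exp (1 / 2) := by
        rw [← Real.exp_add, ← Real.exp_add]
        norm_num
      have h4 := Real.add_one_le_exp (1 / 2 : ℝ)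
      rw [h3]
      have h5 : (7.38 : ℝ) ≤ Real.exp 1 * Real.exp 1 := by nlinarith
      nlinarith
    have h2 : Real.exp (-(10 * t)) ≤ 1 / 11 := by
      rw [Real.exp_neg, one_div]
      refine inv_anti₀ (by norm_num) ?_
      have := Real.add_one_le_exp (10 * t)
      linarith
    have h3 := Real.exp_pos (-(20 * t))
    have h4 : Real.exp (-(20 * t)) * Real.exp (5 / 2) * Real.exp (-(10 * t)) ≤
        Real.exp (-(20 * t)) * Real.exp (5 / 2) * (1 / 11) :=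
      mul_le_mul_of_nonneg_left h2 (by positivity)
    nlinarith
  linarith

end Pool.Agent.DL
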